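import Mathlib
import Pool.Agent.H75.FiveMean

/-!
# The growth exponent of the `5x+1` predecessor trees, on average over the target
-/

namespace Pool.Agent.Results.MP_05966f_nt.AverageExponent

open Finset Filter Topology Pool.Agent.H75.FiveMean

/-- The `5x+1` map on the integers. -/
def T (n : ℤ) : ℤ := if Odd n then (5 * n + 1) / 2 else n / 2

/-- The number of positive integers `n ≤ z` with `T^[k] n = b`. -/
noncomputable def lev (k : ℕ) (z : ℝ) (b : ℤ) : ℕ :=
  Set.ncard {n : ℤ | 1 ≤ n ∧ (n : ℝ) ≤ z ∧ T^[k] n = b}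

theorem T_eq_iff (m b : ℤ) : T m = b ↔ m = 2 * b ∨ 5 * m + 1 = 2 * b := by
  unfold T
  by_cases h : Odd m
  · rw [if_pos h]
    rw [Int.odd_iff] at h
    omega
  · rw [if_neg h]
    rw [Int.odd_iff] at h
    omega

theorem lev_finite (k : ℕ) (z : ℝ) (b : ℤ) :
    {n : ℤ | 1 ≤ n ∧ (n : ℝ) ≤ z ∧ T^[k] n = b}.Finite := by
  apply (Set.finite_Icc (1 : ℤ) ⌊z⌋).subset
  rintro n ⟨h1, h2, _⟩
  exact ⟨h1, Int.le_floor.2 h2⟩

theorem lev_zero (z : ℝ) (b : ℤ) (hb : 1 ≤ b) :
    lev 0 z b = if (b : ℝ) ≤ z then 1 else 0 := by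
  unfold lev
  split_ifs with h
  · have : {n : ℤ | 1 ≤ n ∧ (n : ℝ) ≤ z ∧ T^[0] n = b} = {b} := by
      ext n
      simp only [Function.iterate_zero, id_eq, Set.mem_ofPred_eq, Set.mem_singleton_iff]
      constructor
      · rintro ⟨_, _, h3⟩; exact h3
      · rintro rfl; exact ⟨hb, h, rfl⟩
    rw [this, Set.ncard_singleton]
  · have : {n : ℤ | 1 ≤ n ∧ (n : ℝ) ≤ z ∧ T^[0] n = b} = ∅ := by
      ext n
      simp only [Function.iterate_zero, id_eq, Set.mem_ofPred_eq, Set.mem_empty_iff_false,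
        iff_false]
      rintro ⟨_, h2, rfl⟩
      exact h h2
    rw [this, Set.ncard_empty]

theorem lev_succ (k : ℕ) (z : ℝ) (b : ℤ) :
    lev (k + 1) z b = lev k z (2 * b) + if b % 5 = 3 then lev k z ((2 * b - 1) / 5) else 0 := by
  unfold lev
  split_ifs with h
  · have h0 : {n : ℤ | 1 ≤ n ∧ (n : ℝ) ≤ z ∧ T^[k + 1] n = b} =
        {n : ℤ | 1 ≤ n ∧ (n : ℝ) ≤ z ∧ T^[k] n = 2 * b} ∪
        {n : ℤ | 1 ≤ n ∧ (n : ℝ) ≤ z ∧ T^[k] n = (2 * b - 1) / 5} := by
      ext n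
      simp only [Set.mem_ofPred_eq, Set.mem_union, Function.iterate_succ_apply']
      rw [T_eq_iff]
      have : (5 * T^[k] n + 1 = 2 * b) ↔ (T^[k] n = (2 * b - 1) / 5) := by omega
      rw [this]
      tauto
    rw [h0, Set.ncard_union_eq _ (lev_finite _ _ _) (lev_finite _ _ _)]
    rw [Set.disjoint_left]
    rintro n ⟨_, _, h1⟩ ⟨_, _, h2⟩
    omega
  · have h0 : {n : ℤ | 1 ≤ n ∧ (n : ℝ) ≤ z ∧ T^[k + 1] n = b} =
        {n : ℤ | 1 ≤ n ∧ (n : ℝ) ≤ z ∧ T^[k] n = 2 * b} := by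
      ext n
      simp only [Set.mem_ofPred_eq, Function.iterate_succ_apply']
      rw [T_eq_iff]
      have : ¬ (5 * T^[k] n + 1 = 2 * b) := by omega
      tauto
    rw [h0, add_zero]

/-- sums over the targets in a residue class modulo a power of two -/
noncomputable def W (k i r : ℕ) (x y : ℝ) (A : ℕ) : ℝ :=
  ∑ a ∈ (Icc 1 A).filter (fun a => a % 2 ^ i = r), (lev k (x * a + y) (a : ℤ) : ℝ)

theorem W_succ (k i r r' : ℕ) (x y : ℝ) (A : ℕ)
    (hr' : ∀ b : ℕ, (5 * b + 1) % 2 ^ (i + 1) = 2 * r ↔ b % 2 ^ (i + 1) = r') :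
    W (k + 1) i r x y A = W k (i + 1) (2 * r) (x / 2) y (2 * A) +
      W k (i + 1) r' (5 * x / 2) (x / 2 + y) ((2 * A - 1) / 5) := by
  have hpow : (2 : ℕ) ^ (i + 1) = 2 * 2 ^ i := by rw [pow_succ, mul_comm]
  have hmod : ∀ a : ℕ, (2 * a) % 2 ^ (i + 1) = 2 * r ↔ a % 2 ^ i = r := by
    intro a
    rw [hpow, Nat.mul_mod_mul_left]
    omega
  unfold W
  have h1 : ∑ a ∈ (Icc 1 A).filter (fun a => a % 2 ^ i = r),
      (lev (k + 1) (x * a + y) (a : ℤ) : ℝ) =
      ∑ a ∈ (Icc 1 A).filter (fun a => a % 2 ^ i = r),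
        (lev k (x * a + y) (2 * (a : ℤ)) : ℝ) +
      ∑ a ∈ ((Icc 1 A).filter (fun a => a % 2 ^ i = r)).filter (fun a => a % 5 = 3),
        (lev k (x * a + y) ((2 * (a : ℤ) - 1) / 5) : ℝ) := by
    rw [Finset.sum_filter (fun a => a % 5 = 3), ← Finset.sum_add_distrib]
    apply Finset.sum_congr rfl
    intro a _
    rw [lev_succ]
    push_cast
    congr 1
    have : ((a : ℤ) % 5 = 3) ↔ (a % 5 = 3) := by omega
    by_cases h : a % 5 = 3
    · rw [if_pos h, if_pos (this.2 h)]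
    · rw [if_neg h, if_neg (fun h' => h (this.1 h'))]
  rw [h1]
  congr 1
  · apply Finset.sum_nbij' (fun a => 2 * a) (fun b => b / 2)
    · intro a ha
      rw [mem_filter, mem_Icc] at ha ⊢
      refine ⟨⟨by omega, by omega⟩, (hmod a).2 ha.2⟩
    · intro b hb
      rw [mem_filter, mem_Icc] at hb ⊢
      have he : b % 2 = 0 := by
        have h2 := hb.2
        have : b % 2 = b % 2 ^ (i + 1) % 2 := by
          rw [Nat.mod_mod_of_dvd]; exact Dvd.intro _ hpow.symm
        rw [this, h2]; omega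
      have h3 : 2 * (b / 2) = b := by omega
      refine ⟨⟨by omega, by omega⟩, (hmod (b / 2)).1 (by rw [h3]; exact hb.2)⟩
    · intro a _; simp
    · intro b hb
      rw [mem_filter, mem_Icc] at hb
      have he : b % 2 = 0 := by
        have h2 := hb.2
        have : b % 2 = b % 2 ^ (i + 1) % 2 := by
          rw [Nat.mod_mod_of_dvd]; exact Dvd.intro _ hpow.symm
        rw [this, h2]; omega
      omega
    · intro a _
      push_cast
      congr 2
      ring
  · apply Finset.sum_nbij' (fun a => (2 * a - 1) / 5) (fun b => (5 * b + 1) / 2)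
    · intro a ha
      rw [mem_filter, mem_filter, mem_Icc] at ha
      rw [mem_filter, mem_Icc]
      obtain ⟨⟨⟨h1, h2⟩, h3⟩, h4⟩ := ha
      refine ⟨⟨by omega, by omega⟩, ?_⟩
      rw [← hr', show 5 * ((2 * a - 1) / 5) + 1 = 2 * a by omega]
      exact (hmod a).2 h3
    · intro b hb
      rw [mem_filter, mem_Icc] at hb
      rw [mem_filter, mem_filter, mem_Icc]
      obtain ⟨⟨h1, h2⟩, h3⟩ := hb
      rw [← hr'] at h3
      have he : (5 * b + 1) % 2 = 0 := by
        have : (5 * b + 1) % 2 = (5 * b + 1) % 2 ^ (i + 1) % 2 := by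
          rw [Nat.mod_mod_of_dvd]; exact Dvd.intro _ hpow.symm
        rw [this, h3]; omega
      have h4 : 2 * ((5 * b + 1) / 2) = 5 * b + 1 := by omega
      refine ⟨⟨⟨by omega, by omega⟩, (hmod _).1 (by rw [h4]; exact h3)⟩, by omega⟩
    · intro a ha
      rw [mem_filter, mem_filter, mem_Icc] at ha
      omega
    · intro b hb
      rw [mem_filter, mem_Icc] at hb
      obtain ⟨⟨h1, h2⟩, h3⟩ := hb
      rw [← hr'] at h3
      have he : (5 * b + 1) % 2 = 0 := by
        have : (5 * b + 1) % 2 = (5 * b + 1) % 2 ^ (i + 1) % 2 := by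
          rw [Nat.mod_mod_of_dvd]; exact Dvd.intro _ hpow.symm
        rw [this, h3]; omega
      omega
    · intro a ha
      rw [mem_filter, mem_filter, mem_Icc] at ha
      obtain ⟨⟨⟨h1, h2⟩, h3⟩, h4⟩ := ha
      have e1 : (((2 * a - 1) / 5 : ℕ) : ℤ) = (2 * (a : ℤ) - 1) / 5 := by omega
      have e2 : 5 * (((2 * a - 1) / 5 : ℕ) : ℝ) + 1 = 2 * (a : ℝ) := by
        have : 5 * ((2 * a - 1) / 5) + 1 = 2 * a := by omega
        exact_mod_cast this
      rw [e1]
      congr 2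
      linear_combination (-(x / 2)) * e2

theorem ratio_lim (B : ℕ → ℝ) (β c : ℝ) (h : ∀ A : ℕ, |B A - β * A| ≤ c) :
    Tendsto (fun A : ℕ => B A / A) atTop (𝓝 β) := by
  have h1 : Tendsto (fun A : ℕ => c / (A : ℝ)) atTop (𝓝 0) :=
    tendsto_const_div_atTop_nhds_zero_nat c
  have h2 : Tendsto (fun A : ℕ => B A / A - β) atTop (𝓝 0) := by
    apply squeeze_zero_norm' _ h1
    filter_upwards [eventually_ge_atTop 1] with A hA
    have hA0 : (0 : ℝ) < A := by exact_mod_cast hA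
    rw [Real.norm_eq_abs]
    have : B A / A - β = (B A - β * A) / A := by field_simp
    rw [this, abs_div, abs_of_pos hA0]
    exact div_le_div_of_nonneg_right (h A) hA0.le
  have h3 := h2.add_const β
  simpa using h3

theorem comp_lim (g : ℕ → ℝ) (L : ℝ) (hg : Tendsto (fun A : ℕ => g A / A) atTop (𝓝 L))
    (hg0 : g 0 = 0) (B : ℕ → ℕ) (β c : ℝ) (hβ : 0 < β) (h : ∀ A : ℕ, |(B A : ℝ) - β * A| ≤ c) :
    Tendsto (fun A : ℕ => g (B A) / A) atTop (𝓝 (L * β)) := by
  have h1 := ratio_lim (fun A => (B A : ℝ)) β c h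
  have hB : Tendsto B atTop atTop := by
    have h2 : Tendsto (fun A : ℕ => (B A : ℝ)) atTop atTop := by
      apply tendsto_atTop_mono (f := fun A : ℕ => β * (A : ℝ) - c)
      · intro A
        have := (abs_le.1 (h A)).1
        linarith
      · exact tendsto_atTop_add_const_right _ _
          (tendsto_natCast_atTop_atTop.const_mul_atTop hβ)
    exact tendsto_natCast_atTop_iff.1 h2
  have h3 := (hg.comp hB).mul h1
  apply h3.congr
  intro A
  simp only [Function.comp_apply]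
  by_cases h0 : B A = 0
  · rw [h0, hg0]; simp
  · have : (B A : ℝ) ≠ 0 := by exact_mod_cast h0
    field_simp

theorem class_count (m r : ℕ) (hm : 0 < m) (hr : r < m) (A : ℕ) :
    |(((Icc 1 A).filter (fun a => a % m = r)).card : ℝ) - 1 / m * A| ≤ 3 := by
  have h1 : ((range (A + 1)).filter (fun a => a % m = r)).card =
      (A + 1) / m + if r < (A + 1) % m then 1 else 0 := by
    have := Nat.count_modEq_card (v := r) (r := m) (A + 1) hm
    rw [Nat.count_eq_card_filter_range] at this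
    rw [Nat.mod_eq_of_lt hr] at this
    rw [← this]
    congr 1
    apply Finset.filter_congr
    intro a _
    unfold Nat.ModEq
    rw [Nat.mod_eq_of_lt hr]
  have h2 : ((Icc 1 A).filter (fun a => a % m = r)).card ≤
      ((range (A + 1)).filter (fun a => a % m = r)).card := by
    apply Finset.card_le_card
    intro a ha
    rw [mem_filter, mem_Icc] at ha
    rw [mem_filter, mem_range]
    exact ⟨by omega, ha.2⟩
  have h3 : ((range (A + 1)).filter (fun a => a % m = r)).card ≤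
      ((Icc 1 A).filter (fun a => a % m = r)).card + 1 := by
    have : (range (A + 1)).filter (fun a => a % m = r) ⊆
        insert 0 ((Icc 1 A).filter (fun a => a % m = r)) := by
      intro a ha
      rw [mem_filter, mem_range] at ha
      rw [mem_insert, mem_filter, mem_Icc]
      by_cases h : a = 0
      · left; exact h
      · right; exact ⟨by omega, ha.2⟩
    exact (Finset.card_le_card this).trans (Finset.card_insert_le _ _)
  have hm0 : (0 : ℝ) < m := by exact_mod_cast hm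
  have h4 : (((A + 1) / m : ℕ) : ℝ) ≤ 1 / m * A + 1 := by
    have := Nat.cast_div_le (α := ℝ) (m := A + 1) (n := m)
    have h5 : ((A + 1 : ℕ) : ℝ) / m = 1 / m * A + 1 / m := by push_cast; ring
    have h6 : (1 : ℝ) / m ≤ 1 := by
      rw [div_le_one hm0]; exact_mod_cast hm
    linarith
  have h5 : 1 / (m : ℝ) * A - 1 ≤ (((A + 1) / m : ℕ) : ℝ) := by
    have h6 : A + 1 < m * ((A + 1) / m + 1) := Nat.lt_mul_div_succ _ hm
    have h7 : ((A : ℝ) + 1) < m * ((((A + 1) / m : ℕ) : ℝ) + 1) := by exact_mod_cast h6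
    have h8 : 1 / (m : ℝ) * A = A / m := by ring
    rw [h8, sub_le_iff_le_add, div_le_iff₀ hm0]
    linarith
  have h6 : (((if r < (A + 1) % m then 1 else 0 : ℕ)) : ℝ) ≤ 1 ∧
      (0 : ℝ) ≤ ((if r < (A + 1) % m then 1 else 0 : ℕ) : ℝ) := by
    split_ifs <;> norm_num
  have g1 : (((range (A + 1)).filter (fun a => a % m = r)).card : ℝ) =
      (((A + 1) / m : ℕ) : ℝ) + ((if r < (A + 1) % m then 1 else 0 : ℕ) : ℝ) := by
    exact_mod_cast h1
  have g2 : (((Icc 1 A).filter (fun a => a % m = r)).card : ℝ) ≤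
      (((range (A + 1)).filter (fun a => a % m = r)).card : ℝ) := by exact_mod_cast h2
  have g3 : (((range (A + 1)).filter (fun a => a % m = r)).card : ℝ) ≤
      (((Icc 1 A).filter (fun a => a % m = r)).card : ℝ) + 1 := by exact_mod_cast h3
  rw [abs_le]
  constructor <;> linarith [h6.1, h6.2]

theorem W_nonneg (k i r : ℕ) (x y : ℝ) (A : ℕ) : 0 ≤ W k i r x y A := by
  unfold W
  exact Finset.sum_nonneg (fun _ _ => Nat.cast_nonneg _)

theorem W_at_zero (k i r : ℕ) (x y : ℝ) : W k i r x y 0 = 0 := by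
  unfold W
  simp

theorem W_zero_large (i r : ℕ) (hr : r < 2 ^ i) (x y : ℝ) (hx : 1 ≤ x) (hy : 0 ≤ y) (A : ℕ) :
    |W 0 i r x y A - 1 / 2 ^ i * A| ≤ 3 := by
  have h1 : W 0 i r x y A = (((Icc 1 A).filter (fun a => a % 2 ^ i = r)).card : ℝ) := by
    unfold W
    rw [Finset.card_eq_sum_ones]
    push_cast
    apply Finset.sum_congr rfl
    intro a ha
    rw [mem_filter, mem_Icc] at ha
    rw [lev_zero _ _ (by exact_mod_cast ha.1.1)]
    have ha0 : (0 : ℝ) ≤ a := Nat.cast_nonneg a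
    have : ((a : ℤ) : ℝ) ≤ x * a + y := by
      push_cast
      nlinarith
    rw [if_pos this]
    norm_num
  rw [h1]
  have := class_count (2 ^ i) r (by positivity) hr A
  push_cast at this
  exact this

theorem W_zero_small (i r : ℕ) (x y : ℝ) (hx : x < 1) (hy : 0 ≤ y) (A : ℕ) :
    |W 0 i r x y A - 0 * A| ≤ y / (1 - x) + 1 := by
  rw [zero_mul, sub_zero, abs_of_nonneg (W_nonneg _ _ _ _ _ _)]
  have hx1 : 0 < 1 - x := by linarith
  have h1 : W 0 i r x y A ≤ (((Icc 1 ⌊y / (1 - x)⌋₊)).card : ℝ) := by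
    unfold W
    rw [Finset.card_eq_sum_ones]
    push_cast
    calc ∑ a ∈ (Icc 1 A).filter (fun a => a % 2 ^ i = r), (lev 0 (x * a + y) (a : ℤ) : ℝ)
        ≤ ∑ a ∈ (Icc 1 A).filter (fun a => a % 2 ^ i = r),
          (if a ∈ Icc 1 ⌊y / (1 - x)⌋₊ then (1 : ℝ) else 0) := by
          apply Finset.sum_le_sum
          intro a ha
          rw [mem_filter, mem_Icc] at ha
          rw [lev_zero _ _ (by exact_mod_cast ha.1.1)]
          by_cases h : ((a : ℤ) : ℝ) ≤ x * a + y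
          · have h2 : a ∈ Icc 1 ⌊y / (1 - x)⌋₊ := by
              rw [mem_Icc]
              refine ⟨ha.1.1, Nat.le_floor ?_⟩
              rw [le_div_iff₀ hx1]
              push_cast at h
              linarith
            rw [if_pos h, if_pos h2]
            norm_num
          · rw [if_neg h]
            split_ifs <;> norm_num
      _ = ∑ a ∈ ((Icc 1 A).filter (fun a => a % 2 ^ i = r)).filter
            (fun a => a ∈ Icc 1 ⌊y / (1 - x)⌋₊), (1 : ℝ) :=
          (Finset.sum_filter (fun a => a ∈ Icc 1 ⌊y / (1 - x)⌋₊) (fun _ => (1 : ℝ))).symm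
      _ ≤ ∑ a ∈ Icc 1 ⌊y / (1 - x)⌋₊, (1 : ℝ) := by
          apply Finset.sum_le_sum_of_subset_of_nonneg
          · intro a ha
            rw [mem_filter] at ha
            exact ha.2
          · intro _ _ _; norm_num
  refine h1.trans ?_
  rw [Nat.card_Icc]
  have h2 : (⌊y / (1 - x)⌋₊ : ℝ) ≤ y / (1 - x) := Nat.floor_le (by positivity)
  push_cast [Nat.add_sub_cancel]
  linarith

theorem inv_class (i r : ℕ) (hr : r < 2 ^ i) : ∃ r' : ℕ, r' < 2 ^ (i + 1) ∧
    ∀ b : ℕ, (5 * b + 1) % 2 ^ (i + 1) = 2 * r ↔ b % 2 ^ (i + 1) = r' := by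
  set M := 2 ^ (i + 1) with hM
  have hM2 : M = 2 * 2 ^ i := by rw [hM, pow_succ, mul_comm]
  have hM1 : 1 < M := by
    have : 0 < 2 ^ i := by positivity
    omega
  have hcop : Nat.Coprime 5 M := Nat.Coprime.pow_right _ (by norm_num)
  obtain ⟨u, _, hu⟩ := Nat.exists_mul_mod_eq_one_of_coprime hcop hM1
  refine ⟨(u * (2 * r + M - 1)) % M, Nat.mod_lt _ (by omega), fun b => ?_⟩
  have h2r : 2 * r < M := by omega
  have key : (5 * (u * (2 * r + M - 1)) + 1) ≡ 2 * r [MOD M] := by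
    have h1 : 5 * u ≡ 1 [MOD M] := by
      unfold Nat.ModEq
      rw [hu, Nat.mod_eq_of_lt hM1]
    have h2 : 5 * (u * (2 * r + M - 1)) ≡ 1 * (2 * r + M - 1) [MOD M] := by
      rw [← mul_assoc]; exact h1.mul_right _
    have h3 := h2.add_right 1
    have h4 : 1 * (2 * r + M - 1) + 1 = 2 * r + M := by omega
    rw [h4] at h3
    refine h3.trans ?_
    unfold Nat.ModEq
    rw [Nat.add_mod_right]
  constructor
  · intro h
    have h1 : 5 * b + 1 ≡ 2 * r [MOD M] := by
      unfold Nat.ModEq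
      rw [h, Nat.mod_eq_of_lt h2r]
    have h2 : 5 * b + 1 ≡ 5 * (u * (2 * r + M - 1)) + 1 [MOD M] := h1.trans key.symm
    have h3 : 5 * b ≡ 5 * (u * (2 * r + M - 1)) [MOD M] := Nat.ModEq.add_right_cancel' 1 h2
    exact Nat.ModEq.cancel_left_of_coprime hcop.symm h3
  · intro h
    have h3 : b ≡ u * (2 * r + M - 1) [MOD M] := h
    have h4 := (h3.mul_left 5).add_right 1
    have h5 := h4.trans key
    unfold Nat.ModEq at h5
    rw [h5, Nat.mod_eq_of_lt h2r]

theorem W_lim (k : ℕ) : ∀ (i r : ℕ), r < 2 ^ i → ∀ x y : ℝ, 0 < x → 0 ≤ y →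
    Tendsto (fun A : ℕ => W k i r x y A / A) atTop (𝓝 (f k x / 2 ^ i)) := by
  induction k with
  | zero =>
    intro i r hr x y hx hy
    unfold f
    by_cases h : 1 ≤ x
    · rw [if_pos h]
      exact ratio_lim _ _ 3 (fun A => W_zero_large i r hr x y h hy A)
    · rw [if_neg h, zero_div]
      push Not at h
      exact ratio_lim _ 0 _ (fun A => W_zero_small i r x y h hy A)
  | succ k ih =>
    intro i r hr x y hx hy
    obtain ⟨r', hr'1, hr'2⟩ := inv_class i r hr
    have hpow : (2 : ℕ) ^ (i + 1) = 2 * 2 ^ i := by rw [pow_succ, mul_comm]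
    have h1 := ih (i + 1) (2 * r) (by omega) (x / 2) y (by positivity) hy
    have h2 := ih (i + 1) r' hr'1 (5 * x / 2) (x / 2 + y) (by positivity) (by positivity)
    have g1 := comp_lim _ _ h1 (W_at_zero _ _ _ _ _) (fun A => 2 * A) 2 0 (by norm_num)
      (fun A => by push_cast; simp)
    have g2 := comp_lim _ _ h2 (W_at_zero _ _ _ _ _) (fun A => (2 * A - 1) / 5) (2 / 5) 2
      (by norm_num) (fun A => by
        have e1 : 5 * ((2 * A - 1) / 5) ≤ 2 * A := by omega
        have e2 : 2 * A ≤ 5 * ((2 * A - 1) / 5) + 5 := by omega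
        have e3 : 5 * (((2 * A - 1) / 5 : ℕ) : ℝ) ≤ 2 * (A : ℝ) := by exact_mod_cast e1
        have e4 : 2 * (A : ℝ) ≤ 5 * (((2 * A - 1) / 5 : ℕ) : ℝ) + 5 := by exact_mod_cast e2
        rw [abs_le]
        constructor <;> linarith)
    have g3 := g1.add g2
    have e : f k (x / 2) / 2 ^ (i + 1) * 2 + f k (5 * x / 2) / 2 ^ (i + 1) * (2 / 5) =
        f (k + 1) x / 2 ^ i := by
      conv_rhs => unfold f
      rw [pow_succ]
      field_simp
    rw [e] at g3
    apply g3.congr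
    intro A
    rw [W_succ k i r r' x y A hr'2, add_div]

theorem mean_lim (k : ℕ) (x : ℝ) (hx : 0 < x) :
    Tendsto (fun A : ℕ => (∑ a ∈ Icc 1 A, (lev k (x * a) (a : ℤ) : ℝ)) / A) atTop
      (𝓝 (f k x)) := by
  have h := W_lim k 0 0 (by norm_num) x 0 hx le_rfl
  rw [pow_zero, div_one] at h
  apply h.congr
  intro A
  unfold W
  congr 1
  rw [Finset.filter_true_of_mem]
  · simp
  · intro a _; simp [Nat.mod_one]

theorem rho_eq (s : ℝ) : rho s * 2 ^ s = 1 + 5 ^ (s - 1) := by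
  unfold rho
  have h1 : (1 / 2 : ℝ) ^ s * 2 ^ s = 1 := by
    rw [← Real.mul_rpow (by norm_num) (by norm_num)]; norm_num
  have h2 : (5 / 2 : ℝ) ^ s * 2 ^ s = 5 ^ s := by
    rw [← Real.mul_rpow (by norm_num) (by norm_num)]; norm_num
  have h3 : (5 : ℝ) ^ (s - 1) = 5 ^ s / 5 := by
    rw [Real.rpow_sub (by norm_num), Real.rpow_one]
  rw [h3, ← h2]
  linear_combination h1

theorem cont_rho : Continuous rho := by
  unfold rho
  have h1 : Continuous (fun s : ℝ => (1 / 2 : ℝ) ^ s) :=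
    Real.continuous_const_rpow (by norm_num)
  have h2 : Continuous (fun s : ℝ => (5 / 2 : ℝ) ^ s) :=
    Real.continuous_const_rpow (by norm_num)
  exact h1.add (h2.div_const 5)

theorem rho_low : 1 < rho (41 / 63) := by
  have h1 : (2 : ℝ) ^ (41 / 63 : ℝ) < 1 + 14251 / 25000 := by
    have a : ((2 : ℝ) ^ (41 / 63 : ℝ)) ^ (63 : ℕ) < (1 + 14251 / 25000 : ℝ) ^ (63 : ℕ) := by
      rw [← Real.rpow_natCast, ← Real.rpow_mul (by norm_num)]
      have : (41 / 63 : ℝ) * ((63 : ℕ) : ℝ) = ((41 : ℕ) : ℝ) := by norm_num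
      rw [this, Real.rpow_natCast]
      norm_num
    exact lt_of_pow_lt_pow_left₀ 63 (by norm_num) a
  have h2 : (14251 / 25000 : ℝ) < 5 ^ (41 / 63 - 1 : ℝ) := by
    have a : (14251 / 25000 : ℝ) ^ (63 : ℕ) < ((5 : ℝ) ^ (41 / 63 - 1 : ℝ)) ^ (63 : ℕ) := by
      rw [← Real.rpow_natCast ((5 : ℝ) ^ (41 / 63 - 1 : ℝ)), ← Real.rpow_mul (by norm_num)]
      have : (41 / 63 - 1 : ℝ) * ((63 : ℕ) : ℝ) = -((22 : ℕ) : ℝ) := by norm_num
      rw [this, Real.rpow_neg (by norm_num), Real.rpow_natCast]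
      norm_num
    exact lt_of_pow_lt_pow_left₀ 63 (by positivity) a
  have h3 := rho_eq (41 / 63)
  have h4 : (0 : ℝ) < 2 ^ (41 / 63 : ℝ) := by positivity
  by_contra hcon
  push Not at hcon
  have h5 : rho (41 / 63) * 2 ^ (41 / 63 : ℝ) ≤ 1 * 2 ^ (41 / 63 : ℝ) :=
    mul_le_mul_of_nonneg_right hcon h4.le
  linarith

theorem rho_high : rho (69 / 106) < 1 := by
  have h1 : 1 + 570191 / 1000000 < (2 : ℝ) ^ (69 / 106 : ℝ) := by
    have a : (1 + 570191 / 1000000 : ℝ) ^ (106 : ℕ) < ((2 : ℝ) ^ (69 / 106 : ℝ)) ^ (106 : ℕ) := by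
      rw [← Real.rpow_natCast ((2 : ℝ) ^ (69 / 106 : ℝ)), ← Real.rpow_mul (by norm_num)]
      have : (69 / 106 : ℝ) * ((106 : ℕ) : ℝ) = ((69 : ℕ) : ℝ) := by norm_num
      rw [this, Real.rpow_natCast]
      norm_num
    exact lt_of_pow_lt_pow_left₀ 106 (by positivity) a
  have h2 : (5 : ℝ) ^ (69 / 106 - 1 : ℝ) < 570191 / 1000000 := by
    have a : ((5 : ℝ) ^ (69 / 106 - 1 : ℝ)) ^ (106 : ℕ) < (570191 / 1000000 : ℝ) ^ (106 : ℕ) := by
      rw [← Real.rpow_natCast ((5 : ℝ) ^ (69 / 106 - 1 : ℝ)), ← Real.rpow_mul (by norm_num)]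
      have : (69 / 106 - 1 : ℝ) * ((106 : ℕ) : ℝ) = -((37 : ℕ) : ℝ) := by norm_num
      rw [this, Real.rpow_neg (by norm_num), Real.rpow_natCast]
      norm_num
    exact lt_of_pow_lt_pow_left₀ 106 (by norm_num) a
  have h3 := rho_eq (69 / 106)
  have h4 : (0 : ℝ) < 2 ^ (69 / 106 : ℝ) := by positivity
  by_contra hcon
  push Not at hcon
  have h5 : 1 * 2 ^ (69 / 106 : ℝ) ≤ rho (69 / 106) * 2 ^ (69 / 106 : ℝ) :=
    mul_le_mul_of_nonneg_right hcon h4.le
  linarith

theorem exists_eta : ∃ η : ℝ, 0.6507 < η ∧ η < 0.651 ∧ rho η = 1 := by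
  have h := intermediate_value_Icc' (by norm_num : (41 / 63 : ℝ) ≤ 69 / 106)
    (cont_rho.continuousOn)
  obtain ⟨η, ⟨h1, h2⟩, h3⟩ := h ⟨rho_high.le, rho_low.le⟩
  refine ⟨η, ?_, ?_, h3⟩
  · have : (0.6507 : ℝ) < 41 / 63 := by norm_num
    linarith
  · have : (69 / 106 : ℝ) < 0.651 := by norm_num
    linarith

/-- There is a number `η` with `2 ^ η = 1 + 5 ^ (η - 1)` and `0.6507 < η < 0.651` such that the
following holds.  For every `k` and every real `x > 0` the number of positive integers `n ≤ x a`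
with `T^[k] n = a` has a mean value `f k x` over all targets `a ≥ 1`, the mean values
`f 0 x, f 1 x, ...` have a finite sum, and this sum lies between `x ^ η - 1` and `C x ^ η`. -/
theorem result : ∃ η : ℝ, 0.6507 < η ∧ η < 0.651 ∧ (2 : ℝ) ^ η = 1 + 5 ^ (η - 1) ∧
    ∃ f : ℕ → ℝ → ℝ,
      (∀ k : ℕ, ∀ x : ℝ, 0 < x →
        Tendsto (fun A : ℕ => (∑ a ∈ Icc 1 A, (lev k (x * a) (a : ℤ) : ℝ)) / A) atTop
          (𝓝 (f k x))) ∧
      ∃ C : ℝ, 0 < C ∧ ∀ x : ℝ, 0 < x → Summable (fun k => f k x) ∧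
        x ^ η - 1 ≤ ∑' k, f k x ∧ ∑' k, f k x ≤ C * x ^ η := by
  obtain ⟨η, h1, h2, h3⟩ := exists_eta
  have h4 := rho_eq η
  rw [h3, one_mul] at h4
  have h0 : 0 < η := by linarith
  have h01 : η < 1 := by linarith
  obtain ⟨C, hC, hup⟩ := upper η h0 h01 h3
  exact ⟨η, h1, h2, h4, f, fun k x hx => mean_lim k x hx, C, hC, fun x hx =>
    ⟨(lower η h0 h01 h3 x hx).1, (lower η h0 h01 h3 x hx).2, hup x hx⟩⟩

end Pool.Agent.Results.MP_05966f_nt.AverageExponent
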