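import Mathlib
import Pool.Agent.H75.FiveTable

/-!
# The `5x+1` tree: the level sets grow at most like `1.22 ^ k`

For every target `m ≥ 1` and every `k` at most `316 * 1.22 ^ k` positive integers `n` satisfy
`T^[k] n = m`.  Proof by a weight on the residue classes mod `5 ^ 6`, checked by the kernel.
-/

namespace Pool.Agent.Results.MP_05966f_nt.LevelGrowth

open Finset Pool.Agent.H75.FiveTable

/-- The `5x+1` map on the integers. -/
def T (n : ℤ) : ℤ := if Odd n then (5 * n + 1) / 2 else n / 2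

/-- the same map on the natural numbers -/
def S (n : ℕ) : ℕ := if n % 2 = 1 then (5 * n + 1) / 2 else n / 2

theorem S_odd {n : ℕ} (h : n % 2 = 1) : S n = (5 * n + 1) / 2 := if_pos h

theorem S_even {n : ℕ} (h : ¬ n % 2 = 1) : S n = n / 2 := if_neg h

theorem T_cast (n : ℕ) : T (n : ℤ) = (S n : ℤ) := by
  unfold T S
  by_cases h : n % 2 = 1
  · have h1 : Odd (n : ℤ) := by
      rw [Int.odd_iff]; omega
    rw [if_pos h1, if_pos h]
    push_cast
    rfl
  · have h1 : ¬ Odd (n : ℤ) := by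
      rw [Int.odd_iff]; omega
    rw [if_neg h1, if_neg h]
    push_cast
    rfl

theorem T_iter (k n : ℕ) : T^[k] (n : ℤ) = ((S^[k] n : ℕ) : ℤ) := by
  induction k generalizing n with
  | zero => rfl
  | succ k ih => rw [Function.iterate_succ_apply, Function.iterate_succ_apply, T_cast, ih]

/-- the weight of the class of `a` mod `5 ^ 6` -/
def w (a : ℕ) : ℕ := Nat.mod (Nat.shiftRight W (Nat.mul 16 a)) 65536

/-- one check -/
def chkOne (a : ℕ) : Bool :=
  Nat.ble 64 (w a) && Nat.ble (w a) 20224 &&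
  cond (Nat.beq (Nat.mod a 5) 3)
    (Nat.ble (10000 * (w (2 * a % 15625) + w ((2 * a - 1) / 5 % 3125))) (12200 * w a) &&
     Nat.ble (10000 * (w (2 * a % 15625) + w ((2 * a - 1) / 5 % 3125 + 3125))) (12200 * w a) &&
     Nat.ble (10000 * (w (2 * a % 15625) + w ((2 * a - 1) / 5 % 3125 + 6250))) (12200 * w a) &&
     Nat.ble (10000 * (w (2 * a % 15625) + w ((2 * a - 1) / 5 % 3125 + 9375))) (12200 * w a) &&
     Nat.ble (10000 * (w (2 * a % 15625) + w ((2 * a - 1) / 5 % 3125 + 12500))) (12200 * w a))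
    (Nat.ble (10000 * w (2 * a % 15625)) (12200 * w a))

/-- all checks below `n` -/
def chk : ℕ → Bool
  | 0 => true
  | n + 1 => chkOne n && chk n

set_option maxRecDepth 100000 in
theorem chk_all : chk 15625 = true := by decide +kernel

theorem chk_lt : ∀ n : ℕ, chk n = true → ∀ a < n, chkOne a = true := by
  intro n
  induction n with
  | zero => intro _ a ha; omega
  | succ n ih =>
    intro h a ha
    rw [chk, Bool.and_eq_true] at h
    by_cases h1 : a = n
    · rw [h1]; exact h.1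
    · exact ih h.2 a (by omega)

theorem w_ge (m : ℕ) : 64 ≤ w (m % 15625) := by
  have h := chk_lt _ chk_all (m % 15625) (Nat.mod_lt _ (by norm_num))
  unfold chkOne at h
  simp only [Bool.and_eq_true] at h
  exact Nat.le_of_ble_eq_true h.1.1

theorem w_le (m : ℕ) : w (m % 15625) ≤ 20224 := by
  have h := chk_lt _ chk_all (m % 15625) (Nat.mod_lt _ (by norm_num))
  unfold chkOne at h
  simp only [Bool.and_eq_true] at h
  exact Nat.le_of_ble_eq_true h.1.2

theorem step_other (m : ℕ) (hm : m % 5 ≠ 3) :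
    10000 * w (2 * m % 15625) ≤ 12200 * w (m % 15625) := by
  have h := chk_lt _ chk_all (m % 15625) (Nat.mod_lt _ (by norm_num))
  unfold chkOne at h
  have h1 : Nat.beq (Nat.mod (m % 15625) 5) 3 = false := by
    rw [Bool.eq_false_iff]
    intro h0
    have h0' : m % 15625 % 5 = 3 := Nat.eq_of_beq_eq_true h0
    omega
  rw [h1, cond_false] at h
  simp only [Bool.and_eq_true] at h
  have h2 := Nat.le_of_ble_eq_true h.2
  have h3 : 2 * (m % 15625) % 15625 = 2 * m % 15625 := by omega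
  rwa [h3] at h2

theorem step_three (m : ℕ) (hm : m % 5 = 3) :
    10000 * (w (2 * m % 15625) + w ((2 * m - 1) / 5 % 15625)) ≤ 12200 * w (m % 15625) := by
  have h := chk_lt _ chk_all (m % 15625) (Nat.mod_lt _ (by norm_num))
  unfold chkOne at h
  have h1 : Nat.beq (Nat.mod (m % 15625) 5) 3 = true := by
    rw [Nat.beq_eq]
    change m % 15625 % 5 = 3
    omega
  rw [h1, cond_true] at h
  simp only [Bool.and_eq_true] at h
  obtain ⟨_, ⟨⟨⟨⟨a0, a1⟩, a2⟩, a3⟩, a4⟩⟩ := h
  have a0 := Nat.le_of_ble_eq_true a0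
  have a1 := Nat.le_of_ble_eq_true a1
  have a2 := Nat.le_of_ble_eq_true a2
  have a3 := Nat.le_of_ble_eq_true a3
  have a4 := Nat.le_of_ble_eq_true a4
  have h3 : 2 * (m % 15625) % 15625 = 2 * m % 15625 := by omega
  rw [h3] at a0 a1 a2 a3 a4
  have h4 : (2 * m - 1) / 5 % 15625 = (2 * (m % 15625) - 1) / 5 % 3125 ∨
      (2 * m - 1) / 5 % 15625 = (2 * (m % 15625) - 1) / 5 % 3125 + 3125 ∨
      (2 * m - 1) / 5 % 15625 = (2 * (m % 15625) - 1) / 5 % 3125 + 6250 ∨
      (2 * m - 1) / 5 % 15625 = (2 * (m % 15625) - 1) / 5 % 3125 + 9375 ∨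
      (2 * m - 1) / 5 % 15625 = (2 * (m % 15625) - 1) / 5 % 3125 + 12500 := by omega
  rcases h4 with h4 | h4 | h4 | h4 | h4
  · rewrite [h4]; exact a0
  · rewrite [h4]; exact a1
  · rewrite [h4]; exact a2
  · rewrite [h4]; exact a3
  · rewrite [h4]; exact a4

/-- the natural numbers `n` with `S^[k] n = m` -/
def L : ℕ → ℕ → Finset ℕ
  | 0, m => {m}
  | k + 1, m => L k (2 * m) ∪ (if m % 5 = 3 then L k ((2 * m - 1) / 5) else ∅)

theorem mem_L (k : ℕ) : ∀ n m : ℕ, S^[k] n = m → n ∈ L k m := by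
  induction k with
  | zero => intro n m h; rw [L, Finset.mem_singleton]; exact h
  | succ k ih =>
    intro n m h
    rw [Function.iterate_succ_apply'] at h
    rw [L, Finset.mem_union]
    by_cases hp : S^[k] n % 2 = 1
    · right
      have h1 : (5 * S^[k] n + 1) / 2 = m := by
        rw [S_odd hp] at h; exact h
      have h2 : 2 * m = 5 * S^[k] n + 1 := by omega
      have h3 : m % 5 = 3 := by omega
      rw [if_pos h3]
      apply ih
      omega
    · left
      have h1 : S^[k] n / 2 = m := by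
        rw [S_even hp] at h; exact h
      apply ih
      omega

theorem card_L (k : ℕ) : ∀ m : ℕ,
    (L k m).card * (64 * 10000 ^ k) ≤ w (m % 15625) * 12200 ^ k := by
  induction k with
  | zero => intro m; simp only [L, card_singleton, pow_zero, mul_one, one_mul]; exact w_ge m
  | succ k ih =>
    intro m
    rw [L]
    by_cases hm : m % 5 = 3
    · rw [if_pos hm]
      have h1 := ih (2 * m)
      have h2 := ih ((2 * m - 1) / 5)
      have h3 := step_three m hm
      have h4 := Finset.card_union_le (L k (2 * m)) (L k ((2 * m - 1) / 5))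
      calc _ ≤ ((L k (2 * m)).card + (L k ((2 * m - 1) / 5)).card) * (64 * 10000 ^ (k + 1)) :=
            Nat.mul_le_mul_right _ h4
        _ = 10000 * ((L k (2 * m)).card * (64 * 10000 ^ k) +
              (L k ((2 * m - 1) / 5)).card * (64 * 10000 ^ k)) := by ring
        _ ≤ 10000 * (w (2 * m % 15625) * 12200 ^ k +
              w ((2 * m - 1) / 5 % 15625) * 12200 ^ k) :=
            Nat.mul_le_mul_left _ (Nat.add_le_add h1 h2)
        _ = (10000 * (w (2 * m % 15625) + w ((2 * m - 1) / 5 % 15625))) * 12200 ^ k := by ring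
        _ ≤ (12200 * w (m % 15625)) * 12200 ^ k := Nat.mul_le_mul_right _ h3
        _ = w (m % 15625) * 12200 ^ (k + 1) := by ring
    · rw [if_neg hm, Finset.union_empty]
      have h1 := ih (2 * m)
      have h3 := step_other m hm
      calc _ = 10000 * ((L k (2 * m)).card * (64 * 10000 ^ k)) := by ring
        _ ≤ 10000 * (w (2 * m % 15625) * 12200 ^ k) := Nat.mul_le_mul_left _ h1
        _ = (10000 * w (2 * m % 15625)) * 12200 ^ k := by ring
        _ ≤ (12200 * w (m % 15625)) * 12200 ^ k := Nat.mul_le_mul_right _ h3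
        _ = w (m % 15625) * 12200 ^ (k + 1) := by ring

theorem card_L_real (k m : ℕ) : ((L k m).card : ℝ) ≤ 316 * (1.22 : ℝ) ^ k := by
  have h1 := (card_L k m).trans (Nat.mul_le_mul_right _ (w_le m))
  have h2 : ((L k m).card : ℝ) * (64 * 10000 ^ k) ≤ 20224 * 12200 ^ k := by exact_mod_cast h1
  have h3 : (12200 : ℝ) ^ k = 1.22 ^ k * 10000 ^ k := by
    rw [← mul_pow]; norm_num
  rw [h3] at h2
  have h4 : (0 : ℝ) < 10000 ^ k := by positivity
  have h5 : (((L k m).card : ℝ) * 64) * 10000 ^ k ≤ (20224 * 1.22 ^ k) * 10000 ^ k := by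
    linarith
  have h6 := le_of_mul_le_mul_right h5 h4
  linarith

/-- the positive integers from which `m` is reached in exactly `k` steps -/
def Level (m : ℤ) (k : ℕ) : Set ℤ := {n : ℤ | 1 ≤ n ∧ T^[k] n = m}

theorem level_sub (m : ℤ) (hm : 1 ≤ m) (k : ℕ) :
    Level m k ⊆ ((L k m.toNat).image (fun n : ℕ => (n : ℤ)) : Finset ℤ) := by
  rintro n ⟨h1, h2⟩
  obtain ⟨a, rfl⟩ : ∃ a : ℕ, n = (a : ℤ) := ⟨n.toNat, by omega⟩
  obtain ⟨b, rfl⟩ : ∃ b : ℕ, m = (b : ℤ) := ⟨m.toNat, by omega⟩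
  rw [Finset.mem_coe, Finset.mem_image]
  refine ⟨a, ?_, rfl⟩
  rw [Int.toNat_natCast]
  apply mem_L
  rw [T_iter] at h2
  exact_mod_cast h2

theorem level_finite (m : ℤ) (hm : 1 ≤ m) (k : ℕ) : (Level m k).Finite :=
  (Finset.finite_toSet _).subset (level_sub m hm k)

theorem level_card (m : ℤ) (hm : 1 ≤ m) (k : ℕ) :
    ((Level m k).ncard : ℝ) ≤ 316 * (1.22 : ℝ) ^ k := by
  refine le_trans ?_ (card_L_real k m.toNat)
  have h1 : (Level m k).ncard ≤ (L k m.toNat).card := by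
    calc (Level m k).ncard ≤ ((L k m.toNat).image (fun n : ℕ => (n : ℤ))).card := by
          rw [← Set.ncard_coe_finset]
          exact Set.ncard_le_ncard (level_sub m hm k) (Finset.finite_toSet _)
      _ ≤ _ := Finset.card_image_le
  exact_mod_cast h1

theorem base_le : (1.22 : ℝ) ≤ 2 ^ (0.287 : ℝ) := by
  have h0 : (1.22 : ℝ) ≤ 2 ^ (35 / 122 : ℝ) := by
    have h1 : (1.22 : ℝ) ^ (122 : ℕ) ≤ (2 : ℝ) ^ (35 : ℕ) := by norm_num
    have h2 : ((2 : ℝ) ^ (35 / 122 : ℝ)) ^ (122 : ℕ) = (2 : ℝ) ^ (35 : ℕ) := by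
      rw [← Real.rpow_natCast, ← Real.rpow_mul (by norm_num), ← Real.rpow_natCast]
      congr 1
      norm_num
    rw [← h2] at h1
    exact le_of_pow_le_pow_left₀ (by norm_num) (by positivity) h1
  exact h0.trans (Real.rpow_le_rpow_of_exponent_le (by norm_num) (by norm_num))

theorem early_card (m : ℤ) (hm : 1 ≤ m) (C x : ℝ) (hC : 0 ≤ C) (hx : 1 ≤ x) :
    {n : ℤ | 1 ≤ n ∧ ∃ k : ℕ, (k : ℝ) ≤ C * Real.logb 2 x ∧ T^[k] n = m}.Finite ∧
    (({n : ℤ | 1 ≤ n ∧ ∃ k : ℕ, (k : ℝ) ≤ C * Real.logb 2 x ∧ T^[k] n = m}).ncard : ℝ) ≤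
      1753 * x ^ (0.287 * C) := by
  have hx0 : 0 < x := by linarith
  set M := ⌊C * Real.logb 2 x⌋₊ with hM
  have hlog : 0 ≤ Real.logb 2 x := Real.logb_nonneg (by norm_num) hx
  have hCl : 0 ≤ C * Real.logb 2 x := mul_nonneg hC hlog
  set U : Finset ℤ := (range (M + 1)).biUnion
    (fun k => (L k m.toNat).image (fun n : ℕ => (n : ℤ))) with hU
  have hsub : {n : ℤ | 1 ≤ n ∧ ∃ k : ℕ, (k : ℝ) ≤ C * Real.logb 2 x ∧ T^[k] n = m} ⊆
      (U : Set ℤ) := by
    rintro n ⟨h1, k, h2, h3⟩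
    rw [Finset.mem_coe, hU, Finset.mem_biUnion]
    refine ⟨k, ?_, ?_⟩
    · rw [Finset.mem_range, Nat.lt_succ_iff]
      exact Nat.le_floor h2
    · exact level_sub m hm k ⟨h1, h3⟩
  have hcard : U.card ≤ ∑ k ∈ range (M + 1), (L k m.toNat).card :=
    Finset.card_biUnion_le.trans (Finset.sum_le_sum (fun k _ => Finset.card_image_le))
  have h1 : ((U.card : ℕ) : ℝ) ≤ ∑ k ∈ range (M + 1), 316 * (1.22 : ℝ) ^ k := by
    calc ((U.card : ℕ) : ℝ) ≤ ((∑ k ∈ range (M + 1), (L k m.toNat).card : ℕ) : ℝ) := by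
          exact_mod_cast hcard
      _ = ∑ k ∈ range (M + 1), ((L k m.toNat).card : ℝ) := by push_cast; rfl
      _ ≤ _ := Finset.sum_le_sum (fun k _ => card_L_real k m.toNat)
  have h2 : ∑ k ∈ range (M + 1), 316 * (1.22 : ℝ) ^ k ≤ 1753 * (1.22 : ℝ) ^ M := by
    rw [← Finset.mul_sum, geom_sum_eq (by norm_num)]
    have h3 : (0 : ℝ) < 1.22 ^ M := by positivity
    rw [pow_succ]
    have h4 : (1.22 : ℝ) - 1 = 0.22 := by norm_num
    rw [h4]
    have h5 : 316 * ((1.22 ^ M * 1.22 - 1) / 0.22) ≤ 316 * ((1.22 ^ M * 1.22) / 0.22 : ℝ) := by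
      apply mul_le_mul_of_nonneg_left _ (by norm_num)
      apply div_le_div_of_nonneg_right _ (by norm_num)
      linarith
    refine h5.trans ?_
    have h6 : 316 * ((1.22 ^ M * 1.22) / 0.22 : ℝ) = (316 * 1.22 / 0.22) * 1.22 ^ M := by ring
    rw [h6]
    apply mul_le_mul_of_nonneg_right _ h3.le
    norm_num
  have h3 : (1.22 : ℝ) ^ M ≤ x ^ (0.287 * C) := by
    calc (1.22 : ℝ) ^ M ≤ ((2 : ℝ) ^ (0.287 : ℝ)) ^ M :=
          pow_le_pow_left₀ (by norm_num) base_le M
      _ = (2 : ℝ) ^ (0.287 * (M : ℝ)) := by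
          rw [← Real.rpow_natCast, ← Real.rpow_mul (by norm_num)]
      _ ≤ (2 : ℝ) ^ (0.287 * (C * Real.logb 2 x)) := by
          apply Real.rpow_le_rpow_of_exponent_le (by norm_num)
          apply mul_le_mul_of_nonneg_left _ (by norm_num)
          exact Nat.floor_le hCl
      _ = x ^ (0.287 * C) := by
          rw [show 0.287 * (C * Real.logb 2 x) = Real.logb 2 x * (0.287 * C) by ring,
            Real.rpow_mul (by norm_num), Real.rpow_logb (by norm_num) (by norm_num) hx0]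
  have hfin := (Finset.finite_toSet U).subset hsub
  refine ⟨hfin, ?_⟩
  have h4 : ({n : ℤ | 1 ≤ n ∧ ∃ k : ℕ, (k : ℝ) ≤ C * Real.logb 2 x ∧ T^[k] n = m}).ncard ≤
      U.card := by
    rw [← Set.ncard_coe_finset]
    exact Set.ncard_le_ncard hsub (Finset.finite_toSet _)
  calc _ ≤ ((U.card : ℕ) : ℝ) := by exact_mod_cast h4
    _ ≤ 1753 * (1.22 : ℝ) ^ M := h1.trans h2
    _ ≤ _ := mul_le_mul_of_nonneg_left h3 (by norm_num)

/-- For every integer `m ≥ 1`: for every `k` at most `316 * 1.22 ^ k` positive integers reach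
`m` in exactly `k` steps of the `5x+1` map; hence for all real `C ≥ 0` and `x ≥ 1` at most
`1753 * x ^ (0.287 C)` positive integers reach `m` in at most `C log₂ x` steps. -/
theorem result : ∀ m : ℤ, 1 ≤ m →
    (∀ k : ℕ, (Level m k).Finite ∧ ((Level m k).ncard : ℝ) ≤ 316 * (1.22 : ℝ) ^ k) ∧
    (∀ C x : ℝ, 0 ≤ C → 1 ≤ x →
      {n : ℤ | 1 ≤ n ∧ ∃ k : ℕ, (k : ℝ) ≤ C * Real.logb 2 x ∧ T^[k] n = m}.Finite ∧
      (({n : ℤ | 1 ≤ n ∧ ∃ k : ℕ, (k : ℝ) ≤ C * Real.logb 2 x ∧ T^[k] n = m}).ncard : ℝ) ≤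
        1753 * x ^ (0.287 * C)) :=
  fun m hm => ⟨fun k => ⟨level_finite m hm k, level_card m hm k⟩,
    fun C x hC hx => early_card m hm C x hC hx⟩

end Pool.Agent.Results.MP_05966f_nt.LevelGrowth
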