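import Mathlib

/-!
# The `5x+1` map: few integers have a low trajectory
-/

namespace Pool.Agent.Results.MP_05966f_nt.LowTrajectories

open Finset Filter Topology

/-- The `5x+1` map on the integers. -/
def T (n : ℤ) : ℤ := if Odd n then (5 * n + 1) / 2 else n / 2

/-- the same map on the natural numbers -/
def S (n : ℕ) : ℕ := if n % 2 = 1 then (5 * n + 1) / 2 else n / 2

theorem T_cast (n : ℕ) : T (n : ℤ) = (S n : ℤ) := by
  unfold T S
  by_cases h : n % 2 = 1
  · have h1 : Odd (n : ℤ) := by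
      rw [Int.odd_iff]; omega
    rw [if_pos h1, if_pos h]
    push_cast
    rfl
  · have h1 : ¬ Odd (n : ℤ) := by
      rw [Int.odd_iff]; omega
    rw [if_neg h1, if_neg h]
    push_cast
    rfl

theorem T_iter (k n : ℕ) : T^[k] (n : ℤ) = ((S^[k] n : ℕ) : ℤ) := by
  induction k generalizing n with
  | zero => rfl
  | succ k ih => rw [Function.iterate_succ_apply, Function.iterate_succ_apply, T_cast, ih]

/-- the places of the odd terms among the first `j` -/
def P (j n : ℕ) : Finset ℕ := (range j).filter (fun i => S^[i] n % 2 = 1)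

theorem P_zero_mem {j n : ℕ} : 0 ∈ P (j + 1) n ↔ n % 2 = 1 := by
  unfold P
  simp

theorem P_succ_mem {j n i : ℕ} : i + 1 ∈ P (j + 1) n ↔ i ∈ P j (S n) := by
  unfold P
  simp [Function.iterate_succ_apply]

theorem card_P_succ (j n : ℕ) :
    (P (j + 1) n).card = (if n % 2 = 1 then 1 else 0) + (P j (S n)).card := by
  unfold P
  rw [Finset.card_filter, Finset.sum_range_succ', Finset.card_filter, add_comm]
  rfl

theorem P_inj (j : ℕ) : ∀ n m : ℕ, P j n = P j m → n % 2 ^ j = m % 2 ^ j := by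
  induction j with
  | zero => intro n m _; simp [Nat.mod_one]
  | succ j ih =>
    intro n m h
    have h0 : n % 2 = 1 ↔ m % 2 = 1 := by
      rw [← P_zero_mem (j := j), ← P_zero_mem (j := j), h]
    have h1 : P j (S n) = P j (S m) := by
      ext i
      rw [← P_succ_mem, ← P_succ_mem, h]
    have h2 := ih _ _ h1
    by_cases hn : n % 2 = 1
    · have hm := h0.1 hn
      have e1 : 2 * S n = 5 * n + 1 := by unfold S; rw [if_pos hn]; omega
      have e2 : 2 * S m = 5 * m + 1 := by unfold S; rw [if_pos hm]; omega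
      have h3 : 2 * S n ≡ 2 * S m [MOD 2 * 2 ^ j] := Nat.ModEq.mul_left' 2 h2
      rw [e1, e2] at h3
      have h4 : 5 * n ≡ 5 * m [MOD 2 * 2 ^ j] := Nat.ModEq.add_right_cancel' 1 h3
      have h5 : n ≡ m [MOD 2 * 2 ^ j] := by
        apply Nat.ModEq.cancel_left_of_coprime _ h4
        have : Nat.Coprime (2 ^ (j + 1)) 5 := Nat.Coprime.pow_left _ (by norm_num)
        rw [pow_succ, mul_comm] at this
        exact this
      rw [pow_succ, mul_comm (2 ^ j) 2]
      exact h5
    · have hm : ¬ m % 2 = 1 := fun hm => hn (h0.2 hm)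
      have e1 : 2 * S n = n := by unfold S; rw [if_neg hn]; omega
      have e2 : 2 * S m = m := by unfold S; rw [if_neg hm]; omega
      have h3 : 2 * S n ≡ 2 * S m [MOD 2 * 2 ^ j] := Nat.ModEq.mul_left' 2 h2
      rw [e1, e2] at h3
      rw [pow_succ, mul_comm (2 ^ j) 2]
      exact h3

theorem size_ge (j : ℕ) : ∀ n : ℕ, 5 ^ (P j n).card * n ≤ 2 ^ j * S^[j] n := by
  induction j with
  | zero => intro n; simp [P]
  | succ j ih =>
    intro n
    have h1 := ih (S n)
    rw [card_P_succ, Function.iterate_succ_apply]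
    by_cases hn : n % 2 = 1
    · have e1 : 2 * S n = 5 * n + 1 := by unfold S; rw [if_pos hn]; omega
      rw [if_pos hn, pow_add, pow_one]
      calc 5 * 5 ^ (P j (S n)).card * n = 5 ^ (P j (S n)).card * (5 * n) := by ring
        _ ≤ 5 ^ (P j (S n)).card * (2 * S n) := Nat.mul_le_mul_left _ (by omega)
        _ = 2 * (5 ^ (P j (S n)).card * S n) := by ring
        _ ≤ 2 * (2 ^ j * S^[j] (S n)) := Nat.mul_le_mul_left _ h1
        _ = 2 ^ (j + 1) * S^[j] (S n) := by ring
    · have e1 : 2 * S n = n := by unfold S; rw [if_neg hn]; omega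
      rw [if_neg hn, zero_add]
      calc 5 ^ (P j (S n)).card * n = 2 * (5 ^ (P j (S n)).card * S n) := by
            rw [← mul_assoc, mul_comm 2, mul_assoc, e1]
        _ ≤ 2 * (2 ^ j * S^[j] (S n)) := Nat.mul_le_mul_left _ h1
        _ = 2 ^ (j + 1) * S^[j] (S n) := by ring

/-- the integers in `[2^j, 2^(j+1))` with `T^j n ≤ y` -/
noncomputable def E (y : ℝ) (j : ℕ) : Finset ℕ :=
  (Finset.Ico (2 ^ j) (2 ^ (j + 1))).filter (fun n => ((S^[j] n : ℕ) : ℝ) ≤ y)

theorem card_E_le (y : ℝ) (hy : 1 ≤ y) (j : ℕ) (τ : ℝ) (hτ : 0 ≤ τ) :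
    ((E y j).card : ℝ) ≤ y ^ τ * (1 + (5 : ℝ) ^ (-τ)) ^ j := by
  have hy0 : (0 : ℝ) < y := by linarith
  set Q := (range j).powerset.filter (fun s => ((5 : ℝ) ^ s.card ≤ y)) with hQ
  have h1 : (E y j).card ≤ Q.card := by
    apply Finset.card_le_card_of_injOn (fun n => P j n)
    · intro n hn
      rw [Finset.mem_coe] at hn
      unfold E at hn
      rw [Finset.mem_filter, Finset.mem_Ico] at hn
      obtain ⟨⟨h1, h2⟩, h3⟩ := hn
      rw [Finset.mem_coe, hQ, Finset.mem_filter, Finset.mem_powerset]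
      refine ⟨Finset.filter_subset _ _, ?_⟩
      have h4 := size_ge j n
      have h5 : 5 ^ (P j n).card * 2 ^ j ≤ 2 ^ j * S^[j] n :=
        (Nat.mul_le_mul_left _ h1).trans h4
      have h6 : 5 ^ (P j n).card ≤ S^[j] n := by
        rw [mul_comm] at h5
        exact Nat.le_of_mul_le_mul_left h5 (by positivity)
      have h7 : ((5 : ℝ) ^ (P j n).card) ≤ ((S^[j] n : ℕ) : ℝ) := by exact_mod_cast h6
      exact h7.trans h3
    · intro n hn m hm hnm
      rw [Finset.mem_coe] at hn hm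
      unfold E at hn hm
      rw [Finset.mem_filter, Finset.mem_Ico] at hn hm
      have h2 := P_inj j n m hnm
      have h3 : n / 2 ^ j = 1 := by
        rw [Nat.div_eq_of_lt_le]
        · simpa using hn.1.1
        · have := hn.1.2; rw [pow_succ] at this; omega
      have h4 : m / 2 ^ j = 1 := by
        rw [Nat.div_eq_of_lt_le]
        · simpa using hm.1.1
        · have := hm.1.2; rw [pow_succ] at this; omega
      rw [← Nat.div_add_mod n (2 ^ j), ← Nat.div_add_mod m (2 ^ j), h2, h3, h4]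
  have h2 : (Q.card : ℝ) * y ^ (-τ) ≤ (1 + (5 : ℝ) ^ (-τ)) ^ j := by
    have h3 : ∑ s ∈ (range j).powerset, ((5 : ℝ) ^ (-τ)) ^ s.card = (1 + (5 : ℝ) ^ (-τ)) ^ j := by
      have := Finset.sum_pow_mul_eq_add_pow ((5 : ℝ) ^ (-τ)) 1 (range j)
      simp only [one_pow, mul_one, card_range] at this
      rw [this, add_comm]
    rw [← h3]
    calc (Q.card : ℝ) * y ^ (-τ) = ∑ s ∈ Q, y ^ (-τ) := by
          rw [Finset.sum_const, nsmul_eq_mul]
      _ ≤ ∑ s ∈ Q, ((5 : ℝ) ^ (-τ)) ^ s.card := by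
          apply Finset.sum_le_sum
          intro s hs
          rw [hQ, Finset.mem_filter] at hs
          rw [← Real.rpow_natCast, ← Real.rpow_mul (by norm_num), mul_comm,
            Real.rpow_mul (by norm_num), Real.rpow_natCast]
          exact Real.rpow_le_rpow_of_nonpos (by positivity) hs.2 (by linarith)
      _ ≤ _ := Finset.sum_le_sum_of_subset_of_nonneg (Finset.filter_subset _ _)
          (fun _ _ _ => by positivity)
  have h3 : ((E y j).card : ℝ) ≤ (Q.card : ℝ) := by exact_mod_cast h1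
  have h4 : y ^ τ * y ^ (-τ) = 1 := by
    rw [← Real.rpow_add hy0]; simp
  calc ((E y j).card : ℝ) ≤ (Q.card : ℝ) := h3
    _ = y ^ τ * ((Q.card : ℝ) * y ^ (-τ)) := by
        rw [mul_comm (Q.card : ℝ), ← mul_assoc, h4, one_mul]
    _ ≤ _ := mul_le_mul_of_nonneg_left h2 (by positivity)

/-- the set counted -/
def Low (A x : ℝ) : Set ℤ :=
  {n : ℤ | 1 ≤ n ∧ (n : ℝ) ≤ x ∧ ((T^[Nat.log 2 n.toNat] n : ℤ) : ℝ) ≤ x ^ A}

theorem low_sub (A x : ℝ) :
    Low A x ⊆ (((range (Nat.log 2 ⌊x⌋₊ + 1)).biUnion (E (x ^ A))).image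
      (fun m : ℕ => (m : ℤ)) : Finset ℤ) := by
  rintro n ⟨h1, h2, h3⟩
  obtain ⟨m, rfl⟩ : ∃ m : ℕ, n = (m : ℤ) := ⟨n.toNat, by omega⟩
  rw [Int.toNat_natCast, T_iter] at h3
  rw [Finset.mem_coe, Finset.mem_image]
  refine ⟨m, ?_, rfl⟩
  rw [Finset.mem_biUnion]
  have hm : m ≠ 0 := by
    rintro rfl
    norm_num at h1
  refine ⟨Nat.log 2 m, ?_, ?_⟩
  · rw [Finset.mem_range, Nat.lt_succ_iff]
    apply Nat.log_mono_right
    apply Nat.le_floor
    exact_mod_cast h2
  · unfold E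
    rw [Finset.mem_filter, Finset.mem_Ico]
    refine ⟨⟨Nat.pow_log_le_self 2 hm, Nat.lt_pow_succ_log_self (by norm_num) m⟩, ?_⟩
    exact_mod_cast h3

theorem low_card (A x : ℝ) (hA : 0 ≤ A) (hx : 1 ≤ x) (τ : ℝ) (hτ : 0 ≤ τ) :
    ((Low A x).ncard : ℝ) ≤ (Real.log x / Real.log 2 + 1) *
      x ^ (A * τ + Real.log (1 + (5 : ℝ) ^ (-τ)) / Real.log 2) := by
  have hx0 : (0 : ℝ) < x := by linarith
  have hy : 1 ≤ x ^ A := Real.one_le_rpow hx hA
  set J := Nat.log 2 ⌊x⌋₊ with hJ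
  set q := (5 : ℝ) ^ (-τ) with hq
  have hq0 : 0 < q := by positivity
  have h2J : (2 : ℝ) ^ J ≤ x := by
    have h1 : 2 ^ J ≤ ⌊x⌋₊ := Nat.pow_log_le_self 2 (by
      have : 1 ≤ ⌊x⌋₊ := Nat.le_floor (by simpa using hx)
      omega)
    have h2 : ((2 ^ J : ℕ) : ℝ) ≤ (⌊x⌋₊ : ℝ) := by exact_mod_cast h1
    have h3 : (⌊x⌋₊ : ℝ) ≤ x := Nat.floor_le hx0.le
    push_cast at h2
    linarith
  have hl2 : 0 < Real.log 2 := Real.log_pos (by norm_num)
  have hJx : (J : ℝ) ≤ Real.log x / Real.log 2 := by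
    rw [le_div_iff₀ hl2, ← Real.log_pow]
    exact Real.log_le_log (by positivity) h2J
  have h1 : (Low A x).ncard ≤ ∑ j ∈ range (J + 1), (E (x ^ A) j).card := by
    calc (Low A x).ncard ≤ (((range (J + 1)).biUnion (E (x ^ A))).image
          (fun m : ℕ => (m : ℤ))).card := by
          rw [← Set.ncard_coe_finset]
          exact Set.ncard_le_ncard (low_sub A x) (Finset.finite_toSet _)
      _ ≤ ((range (J + 1)).biUnion (E (x ^ A))).card := Finset.card_image_le
      _ ≤ _ := Finset.card_biUnion_le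
  have h2 : ((Low A x).ncard : ℝ) ≤ ∑ j ∈ range (J + 1), ((E (x ^ A) j).card : ℝ) := by
    exact_mod_cast h1
  have h3 : ∑ j ∈ range (J + 1), ((E (x ^ A) j).card : ℝ) ≤
      ∑ j ∈ range (J + 1), (x ^ A) ^ τ * (1 + q) ^ J := by
    apply Finset.sum_le_sum
    intro j hj
    refine (card_E_le (x ^ A) hy j τ hτ).trans ?_
    apply mul_le_mul_of_nonneg_left _ (by positivity)
    apply pow_le_pow_right₀ (by linarith)
    rw [Finset.mem_range] at hj
    omega
  rw [Finset.sum_const, card_range, nsmul_eq_mul] at h3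
  have h4 : (1 + q) ^ J ≤ x ^ (Real.log (1 + q) / Real.log 2) := by
    have h5 : (1 + q) ^ J = ((2 : ℝ) ^ J) ^ (Real.log (1 + q) / Real.log 2) := by
      rw [← Real.rpow_natCast (2 : ℝ) J, ← Real.rpow_mul (by norm_num),
        Real.rpow_def_of_pos (by norm_num : (0 : ℝ) < 2), ← Real.rpow_natCast (1 + q) J,
        Real.rpow_def_of_pos (by linarith : (0 : ℝ) < 1 + q)]
      congr 1
      field_simp
    rw [h5]
    apply Real.rpow_le_rpow (by positivity) h2J
    apply div_nonneg (Real.log_nonneg (by linarith)) hl2.le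
  calc ((Low A x).ncard : ℝ) ≤ ((J + 1 : ℕ) : ℝ) * ((x ^ A) ^ τ * (1 + q) ^ J) := h2.trans h3
    _ ≤ (Real.log x / Real.log 2 + 1) *
        ((x ^ A) ^ τ * x ^ (Real.log (1 + q) / Real.log 2)) := by
        apply mul_le_mul
        · push_cast; linarith
        · exact mul_le_mul_of_nonneg_left h4 (by positivity)
        · positivity
        · have : 0 ≤ Real.log x := Real.log_nonneg hx
          positivity
    _ = _ := by
        rw [← Real.rpow_mul hx0.le, ← Real.rpow_add hx0]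

theorem exponent (A : ℝ) (hA : 0 < A) (hA2 : A < Real.log 5 / Real.log 4) :
    ∃ τ : ℝ, 0 ≤ τ ∧ A * τ + Real.log (1 + (5 : ℝ) ^ (-τ)) / Real.log 2 =
      Real.binEntropy (A * Real.log 2 / Real.log 5) / Real.log 2 := by
  have hl2 : 0 < Real.log 2 := Real.log_pos (by norm_num)
  have hl5 : 0 < Real.log 5 := Real.log_pos (by norm_num)
  have hl4 : Real.log 4 = 2 * Real.log 2 := by
    rw [show (4 : ℝ) = 2 ^ 2 by norm_num, Real.log_pow]; norm_num
  set θ := A * Real.log 2 / Real.log 5 with hθ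
  have hθ0 : 0 < θ := by positivity
  have hθ1 : θ < 1 / 2 := by
    rw [hθ, div_lt_iff₀ hl5]
    rw [hl4, lt_div_iff₀ (by positivity)] at hA2
    linarith
  have h1 : 0 < 1 - θ := by linarith
  refine ⟨(Real.log (1 - θ) - Real.log θ) / Real.log 5, ?_, ?_⟩
  · apply div_nonneg _ hl5.le
    rw [sub_nonneg]
    exact Real.log_le_log hθ0 (by linarith)
  · have h2 : (5 : ℝ) ^ (-((Real.log (1 - θ) - Real.log θ) / Real.log 5)) = θ / (1 - θ) := by
      rw [Real.rpow_def_of_pos (by norm_num)]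
      have : Real.log 5 * -((Real.log (1 - θ) - Real.log θ) / Real.log 5) =
          Real.log θ - Real.log (1 - θ) := by
        field_simp
        ring
      rw [this, Real.exp_sub, Real.exp_log hθ0, Real.exp_log h1]
    rw [h2]
    have h3 : 1 + θ / (1 - θ) = (1 - θ)⁻¹ := by
      field_simp
      ring
    rw [h3, Real.log_inv]
    unfold Real.binEntropy
    rw [Real.log_inv, Real.log_inv]
    have h4 : A * ((Real.log (1 - θ) - Real.log θ) / Real.log 5) =
        θ * (Real.log (1 - θ) - Real.log θ) / Real.log 2 := by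
      rw [hθ]
      field_simp
    rw [h4, ← add_div]
    congr 1
    ring

theorem exponent_lt_one (A : ℝ) (hA2 : A < Real.log 5 / Real.log 4) :
    Real.binEntropy (A * Real.log 2 / Real.log 5) / Real.log 2 < 1 := by
  have hl2 : 0 < Real.log 2 := Real.log_pos (by norm_num)
  have hl5 : 0 < Real.log 5 := Real.log_pos (by norm_num)
  have hl4 : Real.log 4 = 2 * Real.log 2 := by
    rw [show (4 : ℝ) = 2 ^ 2 by norm_num, Real.log_pow]; norm_num
  rw [div_lt_one hl2, Real.binEntropy_lt_log_two]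
  intro h
  rw [div_eq_iff hl5.ne'] at h
  rw [hl4, lt_div_iff₀ (by positivity)] at hA2
  norm_num at h
  linarith

theorem log_small (ε : ℝ) (hε : 0 < ε) :
    ∀ᶠ x : ℝ in atTop, Real.log x / Real.log 2 + 1 ≤ x ^ ε := by
  have hl2 : 0 < Real.log 2 := Real.log_pos (by norm_num)
  have h1 := (isLittleO_log_rpow_atTop hε).bound (c := Real.log 2 / 2) (by positivity)
  have h2 : ∀ᶠ x : ℝ in atTop, (2 : ℝ) ≤ x ^ ε :=
    (tendsto_rpow_atTop hε).eventually_ge_atTop 2
  filter_upwards [h1, h2, eventually_ge_atTop (1 : ℝ)] with x h1 h2 h3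
  rw [Real.norm_of_nonneg (Real.log_nonneg h3), Real.norm_of_nonneg (by positivity)] at h1
  have h4 : Real.log x / Real.log 2 ≤ x ^ ε / 2 := by
    rw [div_le_iff₀ hl2]
    linarith
  linarith

/-- For `0 < A < log 5 / log 4` the exponent `h = binEntropy (A log 2 / log 5) / log 2` is `< 1`,
and for every `ε > 0` and all large `x` there are at most `x ^ (h + ε)` integers `n` in `[1, x]`
with `T^[⌊log₂ n⌋] n ≤ x ^ A`; in particular this bounds the number of `n ≤ x` whose trajectory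
reaches `1` and never exceeds `x ^ A`. -/
theorem result : ∀ A : ℝ, 0 < A → A < Real.log 5 / Real.log 4 →
    Real.binEntropy (A * Real.log 2 / Real.log 5) / Real.log 2 < 1 ∧
    ∀ ε : ℝ, 0 < ε → ∃ x₀ : ℝ, ∀ x : ℝ, x₀ ≤ x →
      ((Low A x).ncard : ℝ) ≤
        x ^ (Real.binEntropy (A * Real.log 2 / Real.log 5) / Real.log 2 + ε) ∧
      (({n : ℤ | 1 ≤ n ∧ (n : ℝ) ≤ x ∧ (∃ k : ℕ, T^[k] n = 1) ∧
          ∀ k : ℕ, ((T^[k] n : ℤ) : ℝ) ≤ x ^ A}).ncard : ℝ) ≤
        x ^ (Real.binEntropy (A * Real.log 2 / Real.log 5) / Real.log 2 + ε) := by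
  intro A hA hA2
  refine ⟨exponent_lt_one A hA2, ?_⟩
  intro ε hε
  obtain ⟨τ, hτ, hexp⟩ := exponent A hA hA2
  obtain ⟨x₁, hx₁⟩ := Filter.eventually_atTop.1 (log_small ε hε)
  refine ⟨max x₁ 1, fun x hx => ?_⟩
  have hx1 : x₁ ≤ x := (le_max_left _ _).trans hx
  have hx2 : 1 ≤ x := (le_max_right _ _).trans hx
  have hx0 : (0 : ℝ) < x := by linarith
  have h1 := low_card A x hA.le hx2 τ hτ
  rw [hexp] at h1
  have h2 := hx₁ x hx1
  have h3 : ((Low A x).ncard : ℝ) ≤
      x ^ (Real.binEntropy (A * Real.log 2 / Real.log 5) / Real.log 2 + ε) := by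
    calc ((Low A x).ncard : ℝ) ≤ (Real.log x / Real.log 2 + 1) *
        x ^ (Real.binEntropy (A * Real.log 2 / Real.log 5) / Real.log 2) := h1
      _ ≤ x ^ ε * x ^ (Real.binEntropy (A * Real.log 2 / Real.log 5) / Real.log 2) :=
          mul_le_mul_of_nonneg_right h2 (by positivity)
      _ = _ := by rw [← Real.rpow_add hx0, add_comm]
  refine ⟨h3, le_trans ?_ h3⟩
  have h4 : ({n : ℤ | 1 ≤ n ∧ (n : ℝ) ≤ x ∧ (∃ k : ℕ, T^[k] n = 1) ∧
      ∀ k : ℕ, ((T^[k] n : ℤ) : ℝ) ≤ x ^ A}) ⊆ Low A x := by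
    rintro n ⟨a, b, _, d⟩
    exact ⟨a, b, d _⟩
  exact_mod_cast Set.ncard_le_ncard h4 ((Finset.finite_toSet _).subset (low_sub A x))

end Pool.Agent.Results.MP_05966f_nt.LowTrajectories
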