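import Mathlib
import Pool.Agent.MP05966f.Chain

/-!
Lower bound `N_5(x) ≥ C x ^ 0.448` for the `5x+1` problem, and the same bound for the number of
integers up to `x` whose orbit contains a given `a > 0` that is not a multiple of five.
-/

namespace Pool.Agent.Results.MP_05966f_nt.LowerExponent

/-- The `5x+1` map on the integers. -/
def T (n : ℤ) : ℤ := if Odd n then (5 * n + 1) / 2 else n / 2

/-- The number of integers `1 ≤ n ≤ x` with `T^[k] n = a` for some `k ≥ 0`. -/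
noncomputable def N (a : ℤ) (x : ℝ) : ℕ :=
  Set.ncard {n : ℤ | 1 ≤ n ∧ (n : ℝ) ≤ x ∧ ∃ k : ℕ, T^[k] n = a}

theorem result (a : ℤ) (ha : 0 < a) (ha5 : ¬ (5 ∣ a)) :
    ∃ C : ℝ, 0 < C ∧ ∀ x : ℝ, (a : ℝ) ≤ x → C * x ^ (0.448 : ℝ) ≤ (N a x : ℝ) := by
  obtain ⟨C, hC, h⟩ := Pool.Agent.MP05966f.growth_real Pool.Agent.MP05966f.consts
    Pool.Agent.MP05966f.reach_end a ha ha5
  refine ⟨C, hC, fun x hx => ?_⟩
  have h1 := h x hx
  have h2 : (0.448 : ℝ) = 56 / 125 := by norm_num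
  rw [h2]
  exact h1

end Pool.Agent.Results.MP_05966f_nt.LowerExponent
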